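import Mathlib
import Pool.Agent.Y4.P.Jobs

/-!
# Project P of helper4, job JStr: rational matrices of matrices over a number field
(by helper141)
-/

set_option linter.unusedSectionVars false

namespace Pool.Agent.Y141.P

open Matrix Module Pool.Agent.Y90 Pool.Agent.Y4.P
open Pool.Agent.W548.Odd (rational_induction)
open Pool.Agent.W437.HP (cK cK_mul cK_one)

noncomputable section

section reg

variable {K : IntermediateField ℚ ℂ} {m : ℕ} (β : Basis (Fin m) ℚ K) {I J L : Type}

/-- the rational matrix of a product -/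
theorem reg_mul [Fintype J] (A : Matrix I J K) (B : Matrix J L K) :
    reg β (A * B) = reg β A * reg β B := by
  ext p q
  have h1 : reg β (A * B) p q = β.repr ((A * B) p.1 q.1 * β q.2) p.2 := rfl
  have h2 : (reg β A * reg β B) p q = ∑ x : J × Fin m,
      β.repr (A p.1 x.1 * β x.2) p.2 * β.repr (B x.1 q.1 * β q.2) x.2 := rfl
  rw [h1, h2, Fintype.sum_prod_type, Matrix.mul_apply, Finset.sum_mul, map_sum,
    Finsupp.finsetSum_apply]
  refine Finset.sum_congr rfl fun j _ => ?_
  have h3 : A p.1 j * B j q.1 * β q.2 =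
      ∑ k : Fin m, β.repr (B j q.1 * β q.2) k • (A p.1 j * β k) := by
    conv_lhs => rw [mul_assoc, ← β.sum_repr (B j q.1 * β q.2), Finset.mul_sum]
    refine Finset.sum_congr rfl fun k _ => ?_
    rw [mul_smul_comm]
  rw [h3, map_sum, Finsupp.finsetSum_apply]
  refine Finset.sum_congr rfl fun k _ => ?_
  rw [map_smul, Finsupp.smul_apply, smul_eq_mul, mul_comm]

theorem reg_one [DecidableEq I] [DecidableEq (Fin m)] :
    reg β (1 : Matrix I I K) = 1 := by
  ext p q
  have h1 : reg β (1 : Matrix I I K) p q = β.repr ((1 : Matrix I I K) p.1 q.1 * β q.2) p.2 := rfl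
  rw [h1, Matrix.one_apply, Matrix.one_apply]
  by_cases h : p.1 = q.1
  · rw [if_pos h, one_mul, β.repr_self, Finsupp.single_apply]
    by_cases h2 : q.2 = p.2
    · rw [if_pos h2, if_pos (Prod.ext h h2.symm)]
    · rw [if_neg h2, if_neg fun h3 => h2 (by rw [h3])]
  · rw [if_neg h, zero_mul, map_zero, Finsupp.zero_apply, if_neg fun h3 => h (by rw [h3])]

end reg

section blow

variable {R : Type} [CommRing R] {m : ℕ} {I J L : Type}

theorem blow_mul [Fintype J] (A : Matrix I J R) (B : Matrix J L R) :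
    blow m A * blow m B = blow m (A * B) := by
  ext p q
  have h2 : (blow m A * blow m B) p q = ∑ x : J × Fin m,
      (if p.2 = x.2 then A p.1 x.1 else 0) * (if x.2 = q.2 then B x.1 q.1 else 0) := rfl
  have h3 : blow m (A * B) p q = if p.2 = q.2 then (A * B) p.1 q.1 else 0 := rfl
  rw [h2, h3, Fintype.sum_prod_type]
  simp only [ite_mul, zero_mul, Finset.sum_ite_eq, Finset.mem_univ, if_true]
  split_ifs with h
  · rw [Matrix.mul_apply]
  · simp

theorem blow_one [DecidableEq I] : blow m (1 : Matrix I I R) = 1 := by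
  ext p q
  have h3 : blow m (1 : Matrix I I R) p q =
    if p.2 = q.2 then (1 : Matrix I I R) p.1 q.1 else 0 := rfl
  rw [h3, Matrix.one_apply, Matrix.one_apply]
  by_cases h : p = q
  · rw [h]
    simp
  · rw [if_neg h]
    by_cases h2 : p.2 = q.2
    · rw [if_pos h2, if_neg fun h4 => h (Prod.ext h4 h2)]
    · rw [if_neg h2]

theorem blow_neg (A : Matrix I J R) : blow m (-A) = -blow m A := by
  ext p q
  show (if p.2 = q.2 then -A p.1 q.1 else 0) = -(if p.2 = q.2 then A p.1 q.1 else 0)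
  split_ifs <;> simp

theorem blow_add (A B : Matrix I J R) : blow m (A + B) = blow m A + blow m B := by
  ext p q
  show (if p.2 = q.2 then A p.1 q.1 + B p.1 q.1 else 0) =
    (if p.2 = q.2 then A p.1 q.1 else 0) + (if p.2 = q.2 then B p.1 q.1 else 0)
  split_ifs <;> simp

theorem blow_zero : blow m (0 : Matrix I J R) = 0 := by
  ext p q
  show (if p.2 = q.2 then (0 : R) else 0) = 0
  split_ifs <;> rfl

theorem blow_transpose (A : Matrix I J R) : (blow m A)ᵀ = blow m Aᵀ := by
  ext p q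
  show (if q.2 = p.2 then A q.1 p.1 else 0) = if p.2 = q.2 then A q.1 p.1 else 0
  simp only [eq_comm]

end blow

theorem cK_blow {m : ℕ} {I J : Type} (A : Matrix I J ℚ) : cK ℝ (blow m A) = blow m (cK ℝ A) := by
  ext p q
  show (((if p.2 = q.2 then A p.1 q.1 else 0 : ℚ)) : ℝ) =
    if p.2 = q.2 then ((A p.1 q.1 : ℚ) : ℝ) else 0
  split_ifs <;> simp

section key

variable {K : IntermediateField ℚ ℂ} {V : Type} [Fintype V] [DecidableEq V]

/-- The rational coordinates of a matrix which commutes with the conjugates of the complex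
structure commute with the complex structure. -/
theorem coord_comm (J : Matrix V V ℝ) (A : Matrix V V K)
    (hA : ∀ σ : ℂ ≃+* ℂ, (DJ J).map σ * cx A = cx A * (DJ J).map σ) (f : K →ₗ[ℚ] ℚ) :
    J * cK ℝ (Matrix.of fun v w => f (A v w)) = cK ℝ (Matrix.of fun v w => f (A v w)) * J := by
  obtain ⟨l, hl⟩ := LinearMap.exists_extend (p := K.toSubalgebra.toSubmodule) f
  have hlf : ∀ x : K, l (algebraMap K ℂ x) = f x := fun x => LinearMap.congr_fun hl x
  let C : Submodule ℂ (Matrix V V ℂ) :=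
    Submodule.span ℂ (Set.range fun σ : ℂ ≃+* ℂ => (DJ J).map σ)
  have hC : ∀ (σ : ℂ ≃+* ℂ), ∀ X ∈ C, X.map σ ∈ C := by
    intro σ X hX
    induction hX using Submodule.span_induction with
    | mem X hX =>
      obtain ⟨τ, rfl⟩ := hX
      exact Submodule.subset_span ⟨τ.trans σ, rfl⟩
    | zero =>
      have : (0 : Matrix V V ℂ).map σ = 0 := Matrix.map_zero _ (map_zero σ)
      rw [this]
      exact Submodule.zero_mem _
    | add X Y _ _ hX hY =>
      have : (X + Y).map σ = X.map σ + Y.map σ := Matrix.map_add _ (map_add σ) _ _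
      rw [this]
      exact Submodule.add_mem _ hX hY
    | smul c X _ hX =>
      have : (c • X).map σ = σ c • X.map σ := by
        ext i j
        exact map_mul σ _ _
      rw [this]
      exact Submodule.smul_mem _ _ hX
  have hcom : ∀ X ∈ C, X * cx A = cx A * X := by
    intro X hX
    induction hX using Submodule.span_induction with
    | mem X hX =>
      obtain ⟨τ, rfl⟩ := hX
      exact hA τ
    | zero => rw [Matrix.zero_mul, Matrix.mul_zero]
    | add X Y _ _ hX hY => rw [Matrix.add_mul, Matrix.mul_add, hX, hY]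
    | smul c X _ hX => rw [Matrix.smul_mul, Matrix.mul_smul, hX]
  set S : Matrix V V ℚ := Matrix.of fun v w => f (A v w) with hS
  have key : ∀ X ∈ C, X * cK ℂ S = cK ℂ S * X := by
    refine rational_induction C hC ?_ ?_ ?_ ?_
    · intro u hu
      have h2 := hcom _ hu
      have h3 : u * S = S * u := by
        ext i k
        have h4 := congrArg l (congrFun (congrFun h2 i) k)
        rw [Matrix.mul_apply, Matrix.mul_apply, map_sum, map_sum] at h4
        rw [Matrix.mul_apply, Matrix.mul_apply]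
        have h5 : ∀ x, l ((u.map (fun x : ℚ => (x : ℂ))) i x * cx A x k) = u i x * S x k := by
          intro x
          show l (((u i x : ℚ) : ℂ) * algebraMap K ℂ (A x k)) = _
          rw [← Rat.smul_def, map_smul, hlf, smul_eq_mul]
          rfl
        have h6 : ∀ x, l (cx A i x * (u.map (fun x : ℚ => (x : ℂ))) x k) = S i x * u x k := by
          intro x
          show l (algebraMap K ℂ (A i x) * ((u x k : ℚ) : ℂ)) = _
          rw [mul_comm, ← Rat.smul_def, map_smul, hlf, smul_eq_mul, mul_comm]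
          rfl
        rw [Finset.sum_congr rfl fun x _ => h5 x, Finset.sum_congr rfl fun x _ => h6 x] at h4
        exact h4
      have h7 : (u.map (fun x : ℚ => (x : ℂ))) = cK ℂ u := rfl
      show u.map (fun x : ℚ => (x : ℂ)) * cK ℂ S = cK ℂ S * u.map (fun x : ℚ => (x : ℂ))
      rw [h7, ← cK_mul, ← cK_mul, h3]
    · show (0 : Matrix V V ℂ) * _ = _ * 0
      rw [Matrix.zero_mul, Matrix.mul_zero]
    · intro X Y hX hY
      show (X + Y) * _ = _ * (X + Y)
      rw [Matrix.add_mul, Matrix.mul_add]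
      exact congrArg₂ _ hX hY
    · intro c X hX
      show (c • X) * _ = _ * (c • X)
      rw [Matrix.smul_mul, Matrix.mul_smul]
      exact congrArg _ hX
  have h1 : DJ J ∈ C := Submodule.subset_span ⟨RingEquiv.refl ℂ, rfl⟩
  have h2 := key _ h1
  unfold DJ at h2
  rw [Matrix.smul_mul, Matrix.mul_smul] at h2
  have h3 := smul_right_injective (Matrix V V ℂ) (neg_ne_zero.2 Complex.I_ne_zero) h2
  have h4 : (J * cK ℝ S).map (fun x : ℝ => (x : ℂ)) = (cK ℝ S * J).map (fun x : ℝ => (x : ℂ)) := by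
    have e1 : ∀ X Y : Matrix V V ℝ, (X * Y).map (fun x : ℝ => (x : ℂ)) =
        X.map (fun x : ℝ => (x : ℂ)) * Y.map (fun x : ℝ => (x : ℂ)) := fun X Y =>
      Matrix.map_mul (f := Complex.ofRealHom)
    have e2 : (cK ℝ S).map (fun x : ℝ => (x : ℂ)) = cK ℂ S := by
      ext i j
      show (((S i j : ℚ) : ℝ) : ℂ) = ((S i j : ℚ) : ℂ)
      norm_cast
    rw [e1, e1, e2]
    exact h3
  ext i j
  have h5 := congrFun (congrFun h4 i) j
  exact Complex.ofReal_injective h5

/-- The rational matrix commutes with the complex structure. -/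
theorem reg_comm {m : ℕ} (β : Basis (Fin m) ℚ K) (J : Matrix V V ℝ) (A : Matrix V V K)
    (hA : ∀ σ : ℂ ≃+* ℂ, (DJ J).map σ * cx A = cx A * (DJ J).map σ) :
    blow m J * cK ℝ (reg β A) = cK ℝ (reg β A) * blow m J := by
  ext p q
  let f : K →ₗ[ℚ] ℚ := (β.coord p.2).comp (LinearMap.mulRight ℚ (β q.2))
  have h1 := congrFun (congrFun (coord_comm J A hA f) p.1) q.1
  rw [Matrix.mul_apply, Matrix.mul_apply] at h1
  have h2 : (blow m J * cK ℝ (reg β A)) p q = ∑ x : V × Fin m,
      (if p.2 = x.2 then J p.1 x.1 else 0) * ((β.repr (A x.1 q.1 * β q.2) x.2 : ℚ) : ℝ) := rfl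
  have h3 : (cK ℝ (reg β A) * blow m J) p q = ∑ x : V × Fin m,
      ((β.repr (A p.1 x.1 * β x.2) p.2 : ℚ) : ℝ) * (if x.2 = q.2 then J x.1 q.1 else 0) := rfl
  rw [h2, h3, Fintype.sum_prod_type, Fintype.sum_prod_type]
  simp only [ite_mul, mul_ite, zero_mul, mul_zero, Finset.sum_ite_eq, Finset.sum_ite_eq',
    Finset.mem_univ, if_true]
  exact h1

end key

theorem cK_neg {I J : Type} (A : Matrix I J ℚ) : cK ℝ (-A) = -cK ℝ A := by
  ext i j
  show ((-A i j : ℚ) : ℝ) = -((A i j : ℚ) : ℝ)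
  push_cast
  rfl

theorem reg_smul_one {K : IntermediateField ℚ ℂ} {m : ℕ} (β : Basis (Fin m) ℚ K) {V : Type}
    [Fintype V] [DecidableEq V] (J : Matrix V V ℝ) (a : K) :
    blow m J * cK ℝ (reg β (a • (1 : Matrix V V K))) =
      cK ℝ (reg β (a • (1 : Matrix V V K))) * blow m J := by
  apply reg_comm
  intro σ
  have h1 : cx (a • (1 : Matrix V V K)) = (algebraMap K ℂ a) • (1 : Matrix V V ℂ) := by
    ext i j
    show algebraMap K ℂ (a * (1 : Matrix V V K) i j) = algebraMap K ℂ a * (1 : Matrix V V ℂ) i j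
    rw [map_mul, Matrix.one_apply, Matrix.one_apply]
    split_ifs <;> simp
  rw [h1, Matrix.mul_smul, Matrix.smul_mul, Matrix.mul_one, Matrix.one_mul]

/-- Job JStr. -/
theorem jstr : JStr := by
  intro V N _ _ _ _ K J M P Q w m β
  have hreg : ∀ {A B C : Type} [Fintype B] (X : Matrix A B K) (Y : Matrix B C K),
      cK ℝ (reg β X) * cK ℝ (reg β Y) = cK ℝ (reg β (X * Y)) := by
    intro A B C _ X Y
    rw [reg_mul, cK_mul]
  have hE := reg_comm β J (P * Q) w.com
  have hPQP : P * Q * P = P := by rw [Matrix.mul_assoc, w.qp, Matrix.mul_one]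
  have hQPQ : Q * (P * Q) = Q := by rw [← Matrix.mul_assoc, w.qp, Matrix.one_mul]
  have h2 : cK ℝ (reg β P) * JB β J P Q = blow m J * cK ℝ (reg β P) := by
    unfold JB
    rw [← Matrix.mul_assoc, ← Matrix.mul_assoc, hreg, ← hE, Matrix.mul_assoc, hreg, hPQP]
  have h3 : JB β J P Q * cK ℝ (reg β Q) = cK ℝ (reg β Q) * blow m J := by
    unfold JB
    rw [Matrix.mul_assoc, hreg, Matrix.mul_assoc, hE, ← Matrix.mul_assoc, hreg, hQPQ]
  have hqp : cK ℝ (reg β Q) * cK ℝ (reg β P) = 1 := by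
    rw [hreg, w.qp, reg_one, cK_one]
  have h1 : JB β J P Q * JB β J P Q = -1 := by
    have e : JB β J P Q * JB β J P Q =
        cK ℝ (reg β Q) * blow m J * (cK ℝ (reg β P) * JB β J P Q) := by
      conv_lhs =>
        arg 1
        unfold JB
      rw [Matrix.mul_assoc]
    rw [e, h2, Matrix.mul_assoc, ← Matrix.mul_assoc (blow m J), blow_mul, w.sq, blow_neg,
      blow_one, Matrix.neg_mul, Matrix.one_mul, Matrix.mul_neg, hqp]
  have hMB : cK ℝ (MB β M P) = (cK ℝ (reg β P))ᵀ * blow m (cK ℝ M) * cK ℝ (reg β P) := by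
    unfold MB
    rw [cK_mul, cK_mul, cK_blow]
    rfl
  refine ⟨h1, h2, h3, ?_, ?_, ?_, ?_⟩
  · unfold MB
    rw [Matrix.transpose_mul, Matrix.transpose_mul, Matrix.transpose_transpose, blow_transpose,
      w.skew, blow_neg, Matrix.neg_mul, Matrix.mul_neg, Matrix.mul_assoc]
  · have e1 : (JB β J P Q)ᵀ * (cK ℝ (reg β P))ᵀ = (cK ℝ (reg β P))ᵀ * blow m Jᵀ := by
      rw [← Matrix.transpose_mul, h2, Matrix.transpose_mul, blow_transpose]
    have e2 : (JB β J P Q)ᵀ * cK ℝ (MB β M P) =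
        (cK ℝ (reg β P))ᵀ * (blow m (Jᵀ * cK ℝ M)) * cK ℝ (reg β P) := by
      rw [hMB, ← Matrix.mul_assoc, ← Matrix.mul_assoc, e1, Matrix.mul_assoc (cK ℝ (reg β P))ᵀ,
        blow_mul]
    have e3 : cK ℝ (MB β M P) * JB β J P Q =
        (cK ℝ (reg β P))ᵀ * (blow m (cK ℝ M * J)) * cK ℝ (reg β P) := by
      rw [hMB, Matrix.mul_assoc, h2, ← Matrix.mul_assoc, Matrix.mul_assoc (cK ℝ (reg β P))ᵀ,
        blow_mul]
    rw [e2, e3, ← Matrix.add_mul, ← Matrix.mul_add, ← blow_add, w.inv, blow_zero,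
      Matrix.mul_zero, Matrix.zero_mul]
  · intro x hx
    set y := cK ℝ (reg β P) *ᵥ x with hy
    have hy0 : y ≠ 0 := by
      intro h
      apply hx
      have h5 : cK ℝ (reg β Q) *ᵥ y = x := by
        rw [hy, Matrix.mulVec_mulVec, hqp, Matrix.one_mulVec]
      rw [← h5, h, Matrix.mulVec_zero]
    have e1 : (JB β J P Q *ᵥ x) ⬝ᵥ (cK ℝ (MB β M P) *ᵥ x) =
        (blow m J *ᵥ y) ⬝ᵥ (blow m (cK ℝ M) *ᵥ y) := by
      rw [hMB, ← Matrix.mulVec_mulVec, ← hy, ← Matrix.mulVec_mulVec, Matrix.dotProduct_mulVec,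
        Matrix.vecMul_transpose, Matrix.mulVec_mulVec, h2, ← Matrix.mulVec_mulVec]
    rw [e1]
    have e2 : ∀ (A : Matrix V V ℝ) (p : V × Fin m),
        (blow m A *ᵥ y) p = (A *ᵥ fun v => y (v, p.2)) p.1 := by
      intro A p
      have h6 : (blow m A *ᵥ y) p = ∑ x : V × Fin m, (if p.2 = x.2 then A p.1 x.1 else 0) * y x :=
        rfl
      rw [h6, Fintype.sum_prod_type]
      simp only [ite_mul, zero_mul, Finset.sum_ite_eq, Finset.mem_univ, if_true]
      rfl
    have e3 : (blow m J *ᵥ y) ⬝ᵥ (blow m (cK ℝ M) *ᵥ y) =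
        ∑ l : Fin m, (J *ᵥ fun v => y (v, l)) ⬝ᵥ (cK ℝ M *ᵥ fun v => y (v, l)) := by
      have h7 : (blow m J *ᵥ y) ⬝ᵥ (blow m (cK ℝ M) *ᵥ y) =
        ∑ p : V × Fin m, (blow m J *ᵥ y) p * (blow m (cK ℝ M) *ᵥ y) p := rfl
      rw [h7, Fintype.sum_prod_type, Finset.sum_comm]
      refine Finset.sum_congr rfl fun l _ => Finset.sum_congr rfl fun v _ => ?_
      rw [e2, e2]
    rw [e3]
    have e4 : ∀ l : Fin m, 0 ≤ (J *ᵥ fun v => y (v, l)) ⬝ᵥ (cK ℝ M *ᵥ fun v => y (v, l)) := by
      intro l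
      by_cases h : (fun v => y (v, l)) = 0
      · rw [h, Matrix.mulVec_zero, zero_dotProduct]
      · exact (w.pos _ h).le
    obtain ⟨l, hl⟩ : ∃ l : Fin m, (fun v => y (v, l)) ≠ 0 := by
      by_contra hcon
      push Not at hcon
      apply hy0
      funext p
      exact congrFun (hcon p.2) p.1
    exact Finset.sum_pos' (fun l _ => e4 l) ⟨l, Finset.mem_univ _, w.pos _ hl⟩
  · intro a
    have hc := reg_smul_one β J a
    have f1 : (a • (1 : Matrix N N K)) * Q = Q * (a • (1 : Matrix V V K)) := by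
      rw [Matrix.smul_mul, Matrix.mul_smul, Matrix.one_mul, Matrix.mul_one]
    have f2 : (a • (1 : Matrix V V K)) * P = P * (a • (1 : Matrix N N K)) := by
      rw [Matrix.smul_mul, Matrix.mul_smul, Matrix.one_mul, Matrix.mul_one]
    unfold JB
    rw [← Matrix.mul_assoc, ← Matrix.mul_assoc, hreg, f1, ← hreg, Matrix.mul_assoc _ _ (blow m J),
      ← hc, Matrix.mul_assoc _ (blow m J * _), Matrix.mul_assoc (blow m J), hreg, f2, ← hreg]
    simp only [Matrix.mul_assoc]

end

end Pool.Agent.Y141.P
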